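import Mathlib
import Pool.Agent.Helper28.BA.GoalsA

/-! # Packet KATO -/

open Complex MeasureTheory Set Filter Topology

namespace Pool.Agent.Helper24.BA

open Pool.Agent.Helper28.BA

noncomputable section

/-- smoothing of the sign -/
def Se (η t : ℝ) : ℝ := t / Real.sqrt (t ^ 2 + η ^ 2)

lemma se_pos {η : ℝ} (hη : 0 < η) (t : ℝ) : 0 < Real.sqrt (t ^ 2 + η ^ 2) :=
  Real.sqrt_pos.2 (by positivity)

lemma hasDerivAt_Se {η : ℝ} (hη : 0 < η) (t : ℝ) :
    HasDerivAt (Se η) (η ^ 2 / (Real.sqrt (t ^ 2 + η ^ 2)) ^ 3) t := by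
  have hp := se_pos hη t
  have h1 : HasDerivAt (fun t : ℝ => t ^ 2 + η ^ 2) (2 * t) t := by
    simpa using (hasDerivAt_pow 2 t).add_const (η ^ 2)
  have h2 := h1.sqrt (by positivity : t ^ 2 + η ^ 2 ≠ 0)
  have h3 := (hasDerivAt_id t).div h2 hp.ne'
  have hs : Real.sqrt (t ^ 2 + η ^ 2) ^ 2 = t ^ 2 + η ^ 2 := Real.sq_sqrt (by positivity)
  have h4 : (1 * Real.sqrt (t ^ 2 + η ^ 2) - id t * (2 * t / (2 * Real.sqrt (t ^ 2 + η ^ 2)))) /
      Real.sqrt (t ^ 2 + η ^ 2) ^ 2 = η ^ 2 / (Real.sqrt (t ^ 2 + η ^ 2)) ^ 3 := by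
    simp only [id]
    field_simp
    rw [hs]
    ring
  rw [h4] at h3
  exact h3

lemma contDiff_Se {η : ℝ} (hη : 0 < η) : ContDiff ℝ 1 (Se η) := by
  unfold Se
  refine ContDiff.div contDiff_id ?_ (fun t => (se_pos hη t).ne')
  refine ContDiff.sqrt (by fun_prop) (fun t => by positivity)

lemma abs_Se_le {η : ℝ} (hη : 0 < η) (t : ℝ) : |Se η t| ≤ 1 := by
  unfold Se
  rw [abs_div, abs_of_pos (se_pos hη t), div_le_one (se_pos hη t)]
  exact Real.abs_le_sqrt (by nlinarith [sq_nonneg η])

lemma Se_zero (η : ℝ) : Se η 0 = 0 := by simp [Se]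

lemma tendsto_Se (t : ℝ) : Tendsto (fun n : ℕ => Se (1 / ((n : ℝ) + 1)) t) atTop
    (𝓝 ((SignType.sign t : SignType) : ℝ)) := by
  have h0 : Tendsto (fun n : ℕ => 1 / ((n : ℝ) + 1)) atTop (𝓝 0) :=
    tendsto_one_div_add_atTop_nhds_zero_nat
  rcases eq_or_ne t 0 with rfl | ht
  · simp [Se]
  · have h1 : Tendsto (fun n : ℕ => Se (1 / ((n : ℝ) + 1)) t) atTop
        (𝓝 (t / Real.sqrt (t ^ 2 + 0 ^ 2))) := by
      unfold Se
      refine Tendsto.div tendsto_const_nhds ?_ ?_
      · refine (Real.continuous_sqrt.tendsto _).comp ?_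
        exact tendsto_const_nhds.add (h0.pow 2)
      · have : 0 < Real.sqrt (t ^ 2 + 0 ^ 2) := Real.sqrt_pos.2 (by positivity)
        exact this.ne'
    have h2 : t / Real.sqrt (t ^ 2 + 0 ^ 2) = ((SignType.sign t : SignType) : ℝ) := by
      have : Real.sqrt (t ^ 2 + 0 ^ 2) = |t| := by
        rw [show t ^ 2 + (0 : ℝ) ^ 2 = t ^ 2 by ring, Real.sqrt_sq_eq_abs]
      rw [this]
      rcases lt_or_gt_of_ne ht with h | h
      · rw [abs_of_neg h, sign_neg h]
        simp only [SignType.coe_neg_one]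
        field_simp
      · rw [abs_of_pos h, sign_pos h]
        simp only [SignType.coe_one]
        field_simp
    rw [← h2]
    exact h1

/-- `fderiv` in terms of the gradient. -/
lemma fderiv_eq_grd {g : ℂ → ℝ} (z v : ℂ) :
    fderiv ℝ g z v = v.re * (grd g z).re + v.im * (grd g z).im := by
  have hv : v = v.re • (1 : ℂ) + v.im • I := by
    apply Complex.ext <;> simp
  conv_lhs => rw [hv]
  rw [map_add, map_smul, map_smul]
  simp [grd]

lemma contDiff_one_of_grd {g : ℂ → ℝ} (hd : ∀ z, DifferentiableAt ℝ g z)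
    (hc : Continuous (grd g)) : ContDiff ℝ 1 g := by
  rw [contDiff_one_iff_fderiv]
  refine ⟨fun z => hd z, ?_⟩
  have : fderiv ℝ g = fun z => (grd g z).re • Complex.reCLM + (grd g z).im • Complex.imCLM := by
    funext z
    ext v
    rw [fderiv_eq_grd]
    simp
    ring
  rw [this]
  exact ((Complex.continuous_re.comp hc).smul continuous_const).add
    ((Complex.continuous_im.comp hc).smul continuous_const)

/-- One direction of the integration by parts. -/
lemma ibp {g : ℂ → ℝ} (hg : ContDiff ℝ 1 g) (hs : HasCompactSupport g) {η : ℝ} (hη : 0 < η)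
    (v : ℂ) {K : NNReal} (hP : LipschitzWith K fun z => fderiv ℝ g z v) :
    ∫ z, lineDeriv ℝ (fun z => fderiv ℝ g z v) z v * Se η (g z) ≤ 0 := by
  have hh : ContDiff ℝ 1 (fun z => Se η (g z)) := (contDiff_Se hη).comp hg
  have hhs : HasCompactSupport (fun z => Se η (g z)) := hs.comp_left (Se_zero η)
  obtain ⟨D, hD⟩ := ContDiff.lipschitzWith_of_hasCompactSupport hhs hh (by simp)
  rw [hP.integral_lineDeriv_mul_eq hD hhs v]
  have : ∀ x, lineDeriv ℝ (fun z => Se η (g z)) x (-v) * fderiv ℝ g x v ≤ 0 := by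
    intro x
    have h1 : HasFDerivAt g (fderiv ℝ g x) x :=
      (hg.differentiable (by simp)).differentiableAt.hasFDerivAt
    have h2 : HasFDerivAt (fun z => Se η (g z))
        ((η ^ 2 / (Real.sqrt (g x ^ 2 + η ^ 2)) ^ 3) • fderiv ℝ g x) x :=
      (hasDerivAt_Se hη (g x)).comp_hasFDerivAt x h1
    rw [h2.differentiableAt.lineDeriv_eq_fderiv, h2.fderiv]
    simp only [FunLike.coe_smul, Pi.smul_apply, map_neg, smul_eq_mul]
    have hp := se_pos hη (g x)
    have : 0 ≤ η ^ 2 / (Real.sqrt (g x ^ 2 + η ^ 2)) ^ 3 := by positivity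
    nlinarith [mul_nonneg this (mul_self_nonneg (fderiv ℝ g x v))]
  exact integral_nonpos this

theorem KATO : S_KATO := by
  intro g hd ⟨K, hK⟩ hs
  have hg : ContDiff ℝ 1 g := contDiff_one_of_grd hd hK.continuous
  -- the two components
  have hP1 : LipschitzWith K fun z => fderiv ℝ g z 1 := by
    have := (Complex.reCLM.lipschitz.comp hK)
    have h1 : ‖Complex.reCLM‖₊ ≤ 1 := by
      have := Complex.reCLM_norm
      exact_mod_cast this.le
    refine (this.weaken (K' := K) ?_)
    calc ‖Complex.reCLM‖₊ * K ≤ 1 * K := by gcongr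
      _ = K := one_mul K
  have hPI : LipschitzWith K fun z => fderiv ℝ g z I := by
    have := (Complex.imCLM.lipschitz.comp hK)
    have h1 : ‖Complex.imCLM‖₊ ≤ 1 := by
      have := Complex.imCLM_norm
      exact_mod_cast this.le
    refine (this.weaken (K' := K) ?_)
    calc ‖Complex.imCLM‖₊ * K ≤ 1 * K := by gcongr
      _ = K := one_mul K
  -- the function `L`
  set L : ℂ → ℝ := fun z => (dz (grd g) z).re with hL
  have hLae : ∀ᵐ z, L z = (lineDeriv ℝ (fun z => fderiv ℝ g z 1) z 1 +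
      lineDeriv ℝ (fun z => fderiv ℝ g z I) z I) / 2 := by
    filter_upwards [hK.ae_differentiableAt] with z hz
    have h1 : HasFDerivAt (fun z => fderiv ℝ g z 1) (Complex.reCLM.comp (fderiv ℝ (grd g) z)) z :=
      Complex.reCLM.hasFDerivAt.comp z hz.hasFDerivAt
    have h2 : HasFDerivAt (fun z => fderiv ℝ g z I) (Complex.imCLM.comp (fderiv ℝ (grd g) z)) z :=
      Complex.imCLM.hasFDerivAt.comp z hz.hasFDerivAt
    rw [h1.differentiableAt.lineDeriv_eq_fderiv, h1.fderiv,
      h2.differentiableAt.lineDeriv_eq_fderiv, h2.fderiv]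
    simp [hL, dz]
    ring
  have hLmeas : Measurable L := by
    have : Measurable (fderiv ℝ (grd g)) := measurable_fderiv ℝ _
    have h1 : Measurable fun z => fderiv ℝ (grd g) z 1 := measurable_fderiv_apply_const ℝ _ 1
    have h2 : Measurable fun z => fderiv ℝ (grd g) z I := measurable_fderiv_apply_const ℝ _ I
    simp only [hL, dz]
    fun_prop
  have hLbd : ∀ z, |L z| ≤ K := by
    intro z
    have h1 : ‖fderiv ℝ (grd g) z‖ ≤ K := norm_fderiv_le_of_lipschitz ℝ hK
    have h2 : ‖dz (grd g) z‖ ≤ K := by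
      unfold dz
      rw [norm_mul]
      have h3 : ‖fderiv ℝ (grd g) z 1‖ ≤ K := by
        refine (ContinuousLinearMap.le_opNorm _ _).trans ?_
        simpa using h1
      have h4 : ‖I * fderiv ℝ (grd g) z I‖ ≤ K := by
        rw [norm_mul, norm_I, one_mul]
        refine (ContinuousLinearMap.le_opNorm _ _).trans ?_
        simpa using h1
      have h5 := norm_sub_le (fderiv ℝ (grd g) z 1) (I * fderiv ℝ (grd g) z I)
      have h6 : ‖(1 / 2 : ℂ)‖ = 1 / 2 := by norm_num
      rw [h6]
      linarith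
    exact (Complex.abs_re_le_norm _).trans h2
  have hsg : HasCompactSupport (grd g) := by
    have h1 : HasCompactSupport (fderiv ℝ g) := hs.fderiv ℝ
    have : grd g = (fun A : ℂ →L[ℝ] ℝ => (⟨A 1, A I⟩ : ℂ)) ∘ fderiv ℝ g := rfl
    rw [this]
    exact h1.comp_left (by simp; rfl)
  have hLs : HasCompactSupport L := by
    have h1 : HasCompactSupport (fderiv ℝ (grd g)) := hsg.fderiv ℝ
    have : L = (fun A : ℂ →L[ℝ] ℂ => ((1 / 2 : ℂ) * (A 1 - I * A I)).re) ∘ fderiv ℝ (grd g) := rfl
    rw [this]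
    exact h1.comp_left (by simp)
  have hLint : Integrable L := by
    refine IntegrableOn.integrable_of_forall_notMem_eq_zero (s := tsupport L) ?_
      (fun x hx => image_eq_zero_of_notMem_tsupport hx)
    refine Measure.integrableOn_of_bounded (M := K) hLs.isCompact.measure_lt_top.ne
      hLmeas.aestronglyMeasurable ?_
    exact ae_of_all _ hLbd
  have hn : ∀ n : ℕ, ∫ z, Se (1 / ((n : ℝ) + 1)) (g z) * L z ≤ 0 := by
    intro n
    have hη : 0 < 1 / ((n : ℝ) + 1) := by positivity
    have e1 := ibp hg hs hη 1 hP1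
    have e2 := ibp hg hs hη I hPI
    have hcont : Continuous fun z => Se (1 / ((n : ℝ) + 1)) (g z) :=
      (contDiff_Se hη).continuous.comp hg.continuous
    have i1 : Integrable fun z => lineDeriv ℝ (fun z => fderiv ℝ g z 1) z 1 *
        Se (1 / ((n : ℝ) + 1)) (g z) := by
      have := LocallyIntegrable.integrable_smul_left_of_hasCompactSupport
        (hP1.locallyIntegrable_lineDeriv (μ := volume) 1) hcont (hs.comp_left (Se_zero _))
      refine this.congr (ae_of_all _ fun z => ?_)
      simp only [smul_eq_mul]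
      ring
    have i2 : Integrable fun z => lineDeriv ℝ (fun z => fderiv ℝ g z I) z I *
        Se (1 / ((n : ℝ) + 1)) (g z) := by
      have := LocallyIntegrable.integrable_smul_left_of_hasCompactSupport
        (hPI.locallyIntegrable_lineDeriv (μ := volume) I) hcont (hs.comp_left (Se_zero _))
      refine this.congr (ae_of_all _ fun z => ?_)
      simp only [smul_eq_mul]
      ring
    have : ∫ z, Se (1 / ((n : ℝ) + 1)) (g z) * L z = (1 / 2) * (
        (∫ z, lineDeriv ℝ (fun z => fderiv ℝ g z 1) z 1 * Se (1 / ((n : ℝ) + 1)) (g z)) +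
        ∫ z, lineDeriv ℝ (fun z => fderiv ℝ g z I) z I * Se (1 / ((n : ℝ) + 1)) (g z)) := by
      rw [← integral_add i1 i2, ← integral_const_mul]
      refine integral_congr_ae ?_
      filter_upwards [hLae] with z hz
      rw [hz]
      ring
    rw [this]
    linarith
  have hlim : Tendsto (fun n : ℕ => ∫ z, Se (1 / ((n : ℝ) + 1)) (g z) * L z) atTop
      (𝓝 (∫ z, (SignType.sign (g z) : ℝ) * L z)) := by
    refine tendsto_integral_of_dominated_convergence (fun z => |L z|) ?_ hLint.abs ?_ ?_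
    · intro n
      have hη : 0 < 1 / ((n : ℝ) + 1) := by positivity
      exact (((contDiff_Se hη).continuous.comp hg.continuous).measurable.mul
        hLmeas).aestronglyMeasurable
    · intro n
      have hη : 0 < 1 / ((n : ℝ) + 1) := by positivity
      refine ae_of_all _ fun z => ?_
      rw [Real.norm_eq_abs, abs_mul]
      nlinarith [abs_Se_le hη (g z), abs_nonneg (L z)]
    · exact ae_of_all _ fun z => (tendsto_Se (g z)).mul_const _
  exact le_of_tendsto' hlim hn

end

end Pool.Agent.Helper24.BA
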