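import Mathlib
import Pool.Agent.Helper28.BA.GoalsB

/-! # Packet TINT -/

open Complex MeasureTheory Set Filter Topology

namespace Pool.Agent.Helper24.BA

open Pool.Agent.Helper28.BA

noncomputable section

/-- The one dimensional function. -/
def kf (q ρ a b c t : ℝ) : ℝ := t ^ (q - 3) * (if ρ ≤ t then a else b * t + c * t ^ 2)

lemma kf_low {q ρ : ℝ} (a b c : ℝ) : ∀ᵐ t ∂(volume.restrict (Ioc 0 ρ)),
    kf q ρ a b c t = b * t ^ (q - 2) + c * t ^ (q - 1) := by
  have h1 : ∀ᵐ t ∂(volume.restrict (Ioc 0 ρ)), t ≠ ρ := by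
    refine ae_restrict_of_ae ?_
    exact (measure_eq_zero_iff_ae_notMem.1 (measure_singleton (μ := volume) ρ)).mono fun t ht => ht
  filter_upwards [h1, ae_restrict_mem measurableSet_Ioc] with t ht htm
  have hlt : t < ρ := lt_of_le_of_ne htm.2 ht
  have h0 : 0 < t := htm.1
  unfold kf
  rw [if_neg (not_le.2 hlt)]
  have e1 : t ^ (q - 2) = t ^ (q - 3) * t := by
    rw [show q - 2 = (q - 3) + 1 by ring, Real.rpow_add h0, Real.rpow_one]
  have e2 : t ^ (q - 1) = t ^ (q - 3) * t ^ 2 := by
    rw [show q - 1 = (q - 3) + 2 by ring, Real.rpow_add h0]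
    norm_num
  rw [e1, e2]
  ring

lemma kf_high {q ρ : ℝ} (a b c : ℝ) : ∀ t ∈ Ioi ρ, kf q ρ a b c t = a * t ^ (q - 3) := by
  intro t ht
  unfold kf
  rw [if_pos (le_of_lt ht)]
  ring

lemma kf_int {q ρ : ℝ} (h1 : 1 < q) (h2 : q < 2) (hρ : 0 < ρ) (a b c : ℝ) :
    IntegrableOn (kf q ρ a b c) (Ioi 0) ∧
    ∫ t in Ioi 0, kf q ρ a b c t =
      b * (ρ ^ (q - 1) / (q - 1)) + c * (ρ ^ q / q) + a * (ρ ^ (q - 2) / (2 - q)) := by
  have hU : Ioc 0 ρ ∪ Ioi ρ = Ioi (0 : ℝ) := Ioc_union_Ioi_eq_Ioi hρ.le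
  have iA : IntegrableOn (fun t : ℝ => t ^ (q - 2)) (Ioc 0 ρ) :=
    (intervalIntegrable_iff_integrableOn_Ioc_of_le hρ.le).1
      (intervalIntegral.intervalIntegrable_rpow' (by linarith))
  have iB : IntegrableOn (fun t : ℝ => t ^ (q - 1)) (Ioc 0 ρ) :=
    (intervalIntegrable_iff_integrableOn_Ioc_of_le hρ.le).1
      (intervalIntegral.intervalIntegrable_rpow' (by linarith))
  have iC : IntegrableOn (fun t : ℝ => t ^ (q - 3)) (Ioi ρ) :=
    integrableOn_Ioi_rpow_of_lt (by linarith) hρ
  have jl : IntegrableOn (kf q ρ a b c) (Ioc 0 ρ) :=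
    ((iA.const_mul b).add (iB.const_mul c)).congr ((kf_low a b c).mono fun t ht => ht.symm)
  have jh : IntegrableOn (kf q ρ a b c) (Ioi ρ) :=
    (integrableOn_congr_fun (fun t ht => kf_high a b c t ht) measurableSet_Ioi).2 (iC.const_mul a)
  refine ⟨hU ▸ jl.union jh, ?_⟩
  rw [← hU, setIntegral_union (Set.Ioc_disjoint_Ioi le_rfl) measurableSet_Ioi jl jh]
  rw [setIntegral_congr_fun measurableSet_Ioi (kf_high a b c), integral_congr_ae (kf_low a b c)]
  rw [integral_add (iA.const_mul b) (iB.const_mul c), integral_const_mul, integral_const_mul,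
    integral_const_mul, integral_Ioi_rpow_of_lt (by linarith) hρ,
    ← intervalIntegral.integral_of_le hρ.le, ← intervalIntegral.integral_of_le hρ.le,
    integral_rpow (Or.inl (by linarith)), integral_rpow (Or.inl (by linarith))]
  have hq1 : q - 2 + 1 = q - 1 := by ring
  have hq2 : q - 1 + 1 = q := by ring
  have hq3 : q - 3 + 1 = -(2 - q) := by ring
  have hq4 : q - 2 = -(2 - q) := by ring
  rw [hq1, hq2, hq3, Real.zero_rpow (by linarith), Real.zero_rpow (by linarith), hq4, sub_zero,
    sub_zero, neg_div_neg_eq]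

lemma kf_int' {q ρ : ℝ} (h1 : 1 < q) (h2 : q < 2) (hρ : 0 ≤ ρ) {a b c : ℝ} (ha : ρ = 0 → a = 0) :
    IntegrableOn (kf q ρ a b c) (Ioi 0) ∧
    ∫ t in Ioi 0, kf q ρ a b c t =
      b * (ρ ^ (q - 1) / (q - 1)) + c * (ρ ^ q / q) + a * (ρ ^ (q - 2) / (2 - q)) := by
  rcases hρ.lt_or_eq with h | h
  · exact kf_int h1 h2 h a b c
  · have ha0 := ha h.symm
    subst ha0
    rw [← h]
    have e : ∀ t ∈ Ioi (0 : ℝ), kf q 0 0 b c t = 0 := by
      intro t ht
      unfold kf
      rw [if_pos (le_of_lt ht), mul_zero]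
    constructor
    · exact (integrableOn_congr_fun e measurableSet_Ioi).2 integrableOn_zero
    · rw [setIntegral_congr_fun measurableSet_Ioi e, Real.zero_rpow (by linarith),
        Real.zero_rpow (by linarith)]
      simp

theorem TINT : S_TINT := by
  intro q h1 h2 S D hSc hDc hSs hDs hS0 hD0 hyp
  set F : ℂ → ℝ → ℝ := fun z t => kf q (S z + D z) (S z ^ 2 - D z ^ 2) (2 * S z) (-1) t with hF
  have hFm : Measurable (Function.uncurry F) := by
    have m1 : Measurable fun p : ℂ × ℝ => S p.1 := hSc.measurable.comp measurable_fst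
    have m2 : Measurable fun p : ℂ × ℝ => D p.1 := hDc.measurable.comp measurable_fst
    have m3 : Measurable fun p : ℂ × ℝ => p.2 := measurable_snd
    simp only [hF, Function.uncurry_def, kf]
    refine (m3.pow_const _).mul (Measurable.ite ?_ ?_ ?_)
    · exact measurableSet_le (m1.add m2) m3
    · exact (m1.pow_const 2).sub (m2.pow_const 2)
    · exact ((m1.const_mul 2).mul m3).add ((m3.pow_const 2).const_mul (-1))
  have hpos : ∀ z, 0 ≤ S z + D z := fun z => add_nonneg (hS0 z) (hD0 z)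
  have hz : ∀ z, S z + D z = 0 → S z = 0 ∧ D z = 0 := fun z h => by
    constructor <;> linarith [hS0 z, hD0 z]
  have hFz : ∀ z, IntegrableOn (F z) (Ioi 0) ∧ ∫ t in Ioi 0, F z t =
      (2 * S z) * ((S z + D z) ^ (q - 1) / (q - 1)) + (-1) * ((S z + D z) ^ q / q) +
        (S z ^ 2 - D z ^ 2) * ((S z + D z) ^ (q - 2) / (2 - q)) := fun z =>
    kf_int' h1 h2 (hpos z) (fun h => by obtain ⟨a, b⟩ := hz z h; rw [a, b]; ring)
  -- bound
  set G : ℂ → ℝ := fun z => (2 * S z) * ((S z + D z) ^ (q - 1) / (q - 1)) +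
    1 * ((S z + D z) ^ q / q) + (S z + D z) ^ q / (2 - q) with hG
  have hGb : ∀ z, ∫ t in Ioi 0, ‖F z t‖ ≤ G z := by
    intro z
    have hB := kf_int' (b := 2 * S z) (c := 1) h1 h2 (hpos z) (a := (S z + D z) ^ 2)
      (fun h => by rw [h]; ring)
    have e : (S z + D z) ^ 2 * ((S z + D z) ^ (q - 2) / (2 - q)) = (S z + D z) ^ q / (2 - q) := by
      rcases (hpos z).lt_or_eq with h | h
      · rw [← mul_div_assoc, ← Real.rpow_natCast, ← Real.rpow_add h]
        norm_num
      · rw [← h, Real.zero_rpow (by linarith : q ≠ 0)]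
        simp
    rw [e] at hB
    rw [hG]
    simp only
    rw [← hB.2]
    refine setIntegral_mono_on (hFz z).1.norm hB.1 measurableSet_Ioi ?_
    intro t ht
    have ht0 : 0 < t := ht
    simp only [hF, kf, norm_mul]
    rw [Real.norm_eq_abs, abs_of_nonneg (Real.rpow_nonneg ht0.le _)]
    refine mul_le_mul_of_nonneg_left ?_ (Real.rpow_nonneg ht0.le _)
    split_ifs with h
    · rw [Real.norm_eq_abs, abs_le]
      constructor <;> nlinarith [hS0 z, hD0 z, mul_nonneg (hS0 z) (hD0 z)]
    · rw [Real.norm_eq_abs, abs_le]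
      constructor <;> nlinarith [hS0 z, mul_nonneg (hS0 z) ht0.le, sq_nonneg t]
  have hGc : Continuous G := by
    have c1 : Continuous fun z => (S z + D z) ^ (q - 1) :=
      (hSc.add hDc).rpow_const fun z => Or.inr (by linarith)
    have c2 : Continuous fun z => (S z + D z) ^ q :=
      (hSc.add hDc).rpow_const fun z => Or.inr (by linarith)
    simp only [hG]
    fun_prop
  have hGs : HasCompactSupport G := by
    have h := hSs.add hDs
    refine h.mono ?_
    intro z hz'
    by_contra hcon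
    apply hz'
    have h0 : S z + D z = 0 := by simpa [Function.mem_support] using hcon
    obtain ⟨a, b⟩ := hz z h0
    simp only [hG]
    rw [h0, a, Real.zero_rpow (by linarith), Real.zero_rpow (by linarith)]
    simp
  have hGi : Integrable G := hGc.integrable_of_hasCompactSupport hGs
  have hFi : Integrable (Function.uncurry F)
      ((volume : Measure ℂ).prod (volume.restrict (Ioi (0 : ℝ)))) := by
    rw [integrable_prod_iff hFm.aestronglyMeasurable]
    refine ⟨ae_of_all _ fun z => (hFz z).1, ?_⟩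
    refine hGi.mono' ?_ (ae_of_all _ fun z => ?_)
    · exact (hFm.norm.stronglyMeasurable.integral_prod_right).aestronglyMeasurable
    · rw [Real.norm_eq_abs, abs_of_nonneg (integral_nonneg fun t => norm_nonneg _)]
      exact hGb z
  have hswap := integral_integral_swap hFi
  have hR : 0 ≤ ∫ t in Ioi (0 : ℝ), ∫ z, F z t := by
    refine setIntegral_nonneg measurableSet_Ioi fun t ht => ?_
    have ht0 : 0 < t := ht
    have e : ∫ z, F z t = t ^ (q - 3) *
        ∫ z, (if S z + D z ≤ t then S z ^ 2 - D z ^ 2 else 2 * t * S z - t ^ 2) := by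
      rw [← integral_const_mul]
      refine integral_congr_ae (ae_of_all _ fun z => ?_)
      simp only [hF, kf]
      congr 1
      split_ifs
      · rfl
      · ring
    rw [e]
    exact mul_nonneg (Real.rpow_nonneg ht0.le _) (hyp t ht0)
  rw [← hswap] at hR
  have hfin : ∫ z, ∫ t in Ioi 0, F z t = (2 / (q * (q - 1) * (2 - q))) *
      ∫ z, (S z + D z) ^ (q - 1) * (S z - (q - 1) * D z) := by
    rw [← integral_const_mul]
    refine integral_congr_ae (ae_of_all _ fun z => ?_)
    simp only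
    rw [(hFz z).2]
    rcases (hpos z).lt_or_eq with h | h
    · have e1 : (S z + D z) ^ q = (S z + D z) ^ (q - 1) * (S z + D z) := by
        rw [show q = (q - 1) + 1 by ring, Real.rpow_add h, Real.rpow_one]
        ring_nf
      have e2 : (S z ^ 2 - D z ^ 2) * ((S z + D z) ^ (q - 2) / (2 - q)) =
          (S z - D z) * ((S z + D z) ^ (q - 1) / (2 - q)) := by
        rw [show q - 1 = (q - 2) + 1 by ring, Real.rpow_add h, Real.rpow_one]
        ring
      rw [e1, e2]
      have g1 : q - 1 ≠ 0 := by linarith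
      have g2 : q ≠ 0 := by linarith
      have g3 : 2 - q ≠ 0 := by linarith
      field_simp
      ring
    · obtain ⟨a, b⟩ := hz z h.symm
      rw [← h, a, b, Real.zero_rpow (by linarith : q ≠ 0),
        Real.zero_rpow (by linarith : q - 1 ≠ 0)]
      simp
  rw [hfin] at hR
  have hc : 0 < 2 / (q * (q - 1) * (2 - q)) := by
    have : 0 < q - 1 := by linarith
    have : 0 < 2 - q := by linarith
    positivity
  exact nonneg_of_mul_nonneg_right hR hc

end

end Pool.Agent.Helper24.BA
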